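import Pool.Agent.P8H33.QC.Stm2

/-!
# Project QC (helper33), package EXW: existence of the configuration with group `C₂ ≀ C_ℓ`.
-/

set_option autoImplicit false
set_option maxHeartbeats 4000000

open Polynomial IntermediateField

namespace Pool.Agent.P8H38.QC

open Pool.Agent.P8H33.QC

local instance fact2 : Fact (Nat.Prime 2) := ⟨Nat.prime_two⟩

theorem norm_two : ‖(2 : PadicAlgCl 2)‖ = 1 / 2 := by
  have h := PadicAlgCl.norm_extends 2 (2 : ℚ_[2])
  have e0 : algebraMap ℚ_[2] (PadicAlgCl 2) 2 = 2 := map_ofNat _ 2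
  rw [e0] at h
  rw [h]
  have h2 := Padic.norm_p (p := 2)
  have e : ((2 : ℕ) : ℚ_[2]) = 2 := by norm_num
  rw [e] at h2
  rw [h2]
  norm_num

theorem nadd (x y : PadicAlgCl 2) : ‖x + y‖ ≤ max ‖x‖ ‖y‖ := IsUltrametricDist.norm_add_le_max x y

theorem nadd_lt {x y : PadicAlgCl 2} (h : ‖y‖ < ‖x‖) : ‖x + y‖ = ‖x‖ := by
  rw [IsUltrametricDist.norm_add_eq_max_of_norm_ne_norm h.ne']
  exact max_eq_left h.le

/-- the product of the `1 + 2 θ i` -/
theorem prod_form {ι : Type} [DecidableEq ι] (θ : ι → PadicAlgCl 2) (T : Finset ι)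
    (hθ : ∀ i ∈ T, ‖θ i‖ ≤ 1) :
    ∀ S : Finset ι, S ⊆ T → ∃ v : PadicAlgCl 2, ‖v‖ ≤ 1 ∧ ‖∑ i ∈ S, θ i‖ ≤ 1 ∧
      ∏ i ∈ S, (1 + 2 * θ i) = 1 + 2 * (∑ i ∈ S, θ i) + 4 * v := by
  intro S
  induction S using Finset.induction_on with
  | empty =>
    intro _
    exact ⟨0, by simp, by simp, by simp⟩
  | insert j S hj ih =>
    intro hS
    obtain ⟨v, hv, hs, he⟩ := ih ((Finset.subset_insert j S).trans hS)
    have hj1 : ‖θ j‖ ≤ 1 := hθ j (hS (Finset.mem_insert_self j S))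
    refine ⟨v + (∑ i ∈ S, θ i) * θ j + 2 * v * θ j, ?_, ?_, ?_⟩
    · have h1 : ‖(∑ i ∈ S, θ i) * θ j‖ ≤ 1 := by
        rw [norm_mul]
        exact mul_le_one₀ hs (norm_nonneg _) hj1
      have h2 : ‖2 * v * θ j‖ ≤ 1 := by
        rw [norm_mul, norm_mul, norm_two]
        have := norm_nonneg v
        have := norm_nonneg (θ j)
        nlinarith
      exact (nadd _ _).trans (max_le ((nadd _ _).trans (max_le hv h1)) h2)
    · rw [Finset.sum_insert hj]
      exact (nadd _ _).trans (max_le hj1 hs)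
    · rw [Finset.prod_insert hj, he, Finset.sum_insert hj]
      ring

theorem not_mem (K : IntermediateField ℚ_[2] (PadicAlgCl 2))
    (hK : ∀ x ∈ K, ‖x‖ < 1 → ‖x‖ ≤ 1 / 2) (s u : PadicAlgCl 2) (hu : ‖u‖ = 1)
    (hs : s ^ 2 = 1 + 2 * u) : s ∉ K := by
  intro hsK
  have ht : (s - 1) ∈ K := K.sub_mem hsK K.one_mem
  have he : (s - 1) ^ 2 + 2 * (s - 1) = 2 * u := by
    have : (s - 1) ^ 2 + 2 * (s - 1) = s ^ 2 - 1 := by ring
    rw [this, hs]
    ring
  set t := s - 1 with htdef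
  have hn : ‖t ^ 2 + 2 * t‖ = 1 / 2 := by
    rw [he, norm_mul, norm_two, hu, mul_one]
  have h0 := norm_nonneg t
  rcases lt_or_ge ‖t‖ 1 with h1 | h1
  · have h2 := hK t ht h1
    have h3 : ‖t ^ 2 + 2 * t‖ ≤ 1 / 4 := by
      refine (nadd _ _).trans (max_le ?_ ?_)
      · rw [norm_pow]
        nlinarith
      · rw [norm_mul, norm_two]
        linarith
    rw [hn] at h3
    norm_num at h3
  · have h2 : ‖2 * t‖ < ‖t ^ 2‖ := by
      rw [norm_mul, norm_two, norm_pow]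
      nlinarith
    rw [nadd_lt h2, norm_pow] at hn
    nlinarith

theorem aeval_mem {K : IntermediateField ℚ_[2] (PadicAlgCl 2)} {x : PadicAlgCl 2} (hx : x ∈ K)
    (P : ℤ[X]) : aeval x P ∈ K := by
  rw [aeval_eq_sum_range]
  exact sum_mem fun i _ => zsmul_mem (pow_mem hx i) _

theorem tau_aeval (τ : PadicAlgCl 2 ≃ₐ[ℚ_[2]] PadicAlgCl 2) (x : PadicAlgCl 2) (P : ℤ[X]) :
    τ (aeval x P) = aeval (τ x) P := by
  rw [aeval_eq_sum_range, aeval_eq_sum_range, map_sum]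
  refine Finset.sum_congr rfl fun i _ => ?_
  rw [map_zsmul, map_pow]

theorem aeval_alg {x : PadicAlgCl 2} (hx : IsAlgebraic ℚ x) (P : ℤ[X]) :
    IsAlgebraic ℚ (aeval x P) := by
  rw [aeval_eq_sum_range]
  have h : ∀ S : Finset ℕ, IsAlgebraic ℚ (∑ i ∈ S, P.coeff i • x ^ i) := by
    intro S
    induction S using Finset.induction_on with
    | empty => simpa using isAlgebraic_zero
    | insert j S hj ih =>
      rw [Finset.sum_insert hj]
      refine IsAlgebraic.add ?_ ih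
      rw [zsmul_eq_mul]
      exact (isAlgebraic_intCast _).mul (hx.pow j)
  exact h _

theorem exw : S_TAU → S_NBE → S_UNR → S_KUM → S_EXW := by
  intro hTAU hNBE hUNR hKUM ℓ hℓ
  have hℓ0 : 0 < ℓ := by omega
  have : NeZero ℓ := ⟨hℓ0.ne'⟩
  have : Fact (1 < ℓ) := ⟨hℓ⟩
  -- the root of unity
  have hn : 2 ^ ℓ - 1 ≠ 0 := by
    have := Nat.one_lt_two_pow hℓ0.ne'
    omega
  have : NeZero ((2 ^ ℓ - 1 : ℕ) : PadicAlgCl 2) := ⟨by exact_mod_cast hn⟩
  obtain ⟨ζ, hζ0⟩ := IsAlgClosed.exists_root (cyclotomic (2 ^ ℓ - 1) (PadicAlgCl 2))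
    (degree_cyclotomic_pos _ _ (Nat.pos_of_ne_zero hn)).ne'
  have hζ : IsPrimitiveRoot ζ (2 ^ ℓ - 1) := isRoot_cyclotomic_iff.1 hζ0
  obtain ⟨τ, hτ⟩ := hTAU ℓ hℓ0 ζ hζ
  obtain ⟨P, hP⟩ := hNBE ℓ hℓ0 ζ hζ
  set K : IntermediateField ℚ_[2] (PadicAlgCl 2) :=
    adjoin ℚ_[2] ({ζ} : Set (PadicAlgCl 2)) with hKdef
  have hK : ∀ x ∈ K, ‖x‖ < 1 → ‖x‖ ≤ 1 / 2 := hUNR ℓ hℓ0 ζ hζ
  have hζK : ζ ∈ K := mem_adjoin_simple_self _ _
  have hζp : ζ ^ (2 ^ ℓ) = ζ := by
    have h1 : 2 ^ ℓ = (2 ^ ℓ - 1) + 1 := by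
      have := Nat.one_lt_two_pow hℓ0.ne'
      omega
    rw [h1, pow_succ, hζ.pow_eq_one, one_mul]
  set θ : ℕ → PadicAlgCl 2 := fun i => aeval (ζ ^ (2 ^ i)) P with hθ
  have hθτ : ∀ i, τ (θ i) = θ (i + 1) := by
    intro i
    show τ (aeval (ζ ^ (2 ^ i)) P) = aeval (ζ ^ (2 ^ (i + 1))) P
    rw [tau_aeval, map_pow, hτ, ← pow_mul, ← pow_succ']
  have hθK : ∀ i, θ i ∈ K := fun i => aeval_mem (pow_mem hζK _) P
  have hθℓ : θ ℓ = θ 0 := by
    show aeval (ζ ^ (2 ^ ℓ)) P = aeval (ζ ^ (2 ^ 0)) P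
    rw [hζp, pow_zero, pow_one]
  have hθn : ∀ i, i < ℓ → ‖θ i‖ = 1 := by
    intro i hi
    have h := hP {i} (by simpa using hi) (Finset.singleton_nonempty i)
    rwa [Finset.sum_singleton] at h
  -- the square roots
  obtain ⟨r0, hr0⟩ := IsAlgClosed.exists_pow_nat_eq (1 + 2 * θ 0) (two_pos)
  set r : ℕ → PadicAlgCl 2 := fun i => (τ ^ i) r0 with hrdef
  have hrτ : ∀ i, τ (r i) = r (i + 1) := by
    intro i
    show τ ((τ ^ i) r0) = (τ ^ (i + 1)) r0
    rw [pow_succ', AlgEquiv.mul_apply]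
  have hr2 : ∀ i, r i ^ 2 = 1 + 2 * θ i := by
    intro i
    induction i with
    | zero =>
      show ((τ ^ 0) r0) ^ 2 = _
      rw [pow_zero, AlgEquiv.one_apply, hr0]
    | succ i ih =>
      rw [← hrτ, ← map_pow, ih, map_add, map_one, map_mul, map_ofNat, hθτ]
  have h1K : (1 : PadicAlgCl 2) ∈ K := K.one_mem
  have h2K : (2 : PadicAlgCl 2) ∈ K := by
    have : (2 : PadicAlgCl 2) = 1 + 1 := by norm_num
    rw [this]
    exact K.add_mem h1K h1K
  have hr2K : ∀ i, r i ^ 2 ∈ K := by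
    intro i
    rw [hr2]
    exact K.add_mem h1K (K.mul_mem h2K (hθK i))
  -- the products are not in `K`
  have hprod : ∀ S : Finset ℕ, S ⊆ Finset.range ℓ → S.Nonempty → ∏ i ∈ S, r i ∉ K := by
    intro S hS hne
    obtain ⟨v, hv, -, he⟩ := prod_form θ (Finset.range ℓ)
      (fun i hi => (hθn i (Finset.mem_range.1 hi)).le) S hS
    refine not_mem K hK _ ((∑ i ∈ S, θ i) + 2 * v) ?_ ?_
    · have h1 : ‖∑ i ∈ S, θ i‖ = 1 := hP S hS hne
      rw [nadd_lt, h1]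
      rw [h1, norm_mul, norm_two]
      linarith
    · rw [← Finset.prod_pow, Finset.prod_congr rfl fun i _ => hr2 i, he]
      ring
  obtain ⟨σ, hσK, hσ0, hσ⟩ := hKUM 2 K ℓ (fun i : Fin ℓ => r i) (fun i => hr2K i) (by
    intro S hS
    have h := hprod (S.map Fin.valEmbedding) (by
      intro x hx
      rw [Finset.mem_map] at hx
      obtain ⟨a, -, rfl⟩ := hx
      exact Finset.mem_range.2 a.2) (by
      obtain ⟨a, ha⟩ := hS
      exact ⟨_, Finset.mem_map_of_mem _ ha⟩)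
    rw [Finset.prod_map] at h
    exact h) ⟨0, hℓ0⟩
  have hσ0' : σ (r 0) = -r 0 := hσ0
  have hσ' : ∀ i, 0 < i → i < ℓ → σ (r i) = r i := by
    intro i hi0 hi
    have h := hσ ⟨i, hi⟩ (by
      intro h
      have := congrArg Fin.val h
      simp only at this
      omega)
    exact h
  -- the cyclic automorphism
  have hcyc : ∃ ρ : PadicAlgCl 2 ≃ₐ[ℚ_[2]] PadicAlgCl 2, (∀ i, i + 1 < ℓ → ρ (r i) = r (i + 1)) ∧
      ρ (r (ℓ - 1)) = r 0 := by
    have hℓ1 : ℓ - 1 + 1 = ℓ := by omega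
    have h1 : r ℓ ^ 2 = r 0 ^ 2 := by rw [hr2, hr2, hθℓ]
    rcases sq_eq_sq_iff_eq_or_eq_neg.1 h1 with h | h
    · refine ⟨τ, fun i _ => hrτ i, ?_⟩
      rw [hrτ, hℓ1, h]
    · refine ⟨τ.trans σ, fun i hi => ?_, ?_⟩
      · rw [AlgEquiv.trans_apply, hrτ]
        exact hσ' (i + 1) (by omega) hi
      · rw [AlgEquiv.trans_apply, hrτ, hℓ1, h, map_neg, hσ0', neg_neg]
  obtain ⟨ρ, hρ, hρ'⟩ := hcyc
  -- norms
  have hrn : ∀ i, i < ℓ → ‖r i‖ = 1 := by
    intro i hi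
    have h1 : ‖r i ^ 2‖ = 1 := by
      rw [hr2, nadd_lt, norm_one]
      rw [norm_mul, norm_two, hθn i hi, norm_one]
      norm_num
    rw [norm_pow] at h1
    exact (pow_eq_one_iff_of_nonneg (norm_nonneg _) two_ne_zero).1 h1
  have h4 : ‖(4 : PadicAlgCl 2)‖ = 1 / 4 := by
    have : (4 : PadicAlgCl 2) = 2 * 2 := by norm_num
    rw [this, norm_mul, norm_two]
    norm_num
  have hminus : ∀ i, i < ℓ → ‖1 - 4 * r i‖ = 1 := by
    intro i hi
    have : 1 - 4 * r i = 1 + -(4 * r i) := by ring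
    rw [this, nadd_lt, norm_one]
    rw [norm_neg, norm_mul, h4, hrn i hi, norm_one]
    norm_num
  have hplus : ∀ i, i < ℓ → ‖1 + 4 * r i‖ = 1 := by
    intro i hi
    rw [nadd_lt, norm_one]
    rw [norm_mul, h4, hrn i hi, norm_one]
    norm_num
  have hm0 : ∀ i, i < ℓ → 1 - 4 * r i ≠ 0 := by
    intro i hi h
    have := hminus i hi
    rw [h, norm_zero] at this
    norm_num at this
  have hp0 : ∀ i, i < ℓ → 1 + 4 * r i ≠ 0 := by
    intro i hi h
    have := hplus i hi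
    rw [h, norm_zero] at this
    norm_num at this
  -- the numbers
  refine ⟨fun i => (1 + 4 * r i.val) / (1 - 4 * r i.val), fun i => ?_, ρ, σ, fun i => ?_, ?_, ?_⟩
  · have hi : i.val < ℓ := ZMod.val_lt i
    have hdiff : (1 + 4 * r i.val) / (1 - 4 * r i.val) - 1 = 8 * r i.val / (1 - 4 * r i.val) := by
      rw [div_sub_one (hm0 _ hi)]
      congr 1
      ring
    have hdn : ‖(1 + 4 * r i.val) / (1 - 4 * r i.val) - 1‖ = 1 / 8 := by
      rw [hdiff, norm_div, hminus _ hi, norm_mul, hrn _ hi]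
      have : (8 : PadicAlgCl 2) = 2 * 4 := by norm_num
      rw [this, norm_mul, norm_two, h4]
      norm_num
    refine ⟨?_, div_ne_zero (hp0 _ hi) (hm0 _ hi), ?_, hdn.le⟩
    · have hζa : IsAlgebraic ℚ ζ := by
        have : IsIntegral ℤ ζ := hζ.isIntegral (Nat.pos_of_ne_zero hn)
        exact (this.tower_top (A := ℚ)).isAlgebraic
      have hra : IsAlgebraic ℚ (r i.val) := by
        refine IsAlgebraic.of_pow two_pos ?_
        rw [hr2]
        exact isAlgebraic_one.add ((by simpa using isAlgebraic_natCast (R := ℚ) (A := PadicAlgCl 2) 2 :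
          IsAlgebraic ℚ (2 : PadicAlgCl 2)).mul (aeval_alg (hζa.pow _) P))
      have h4a : IsAlgebraic ℚ (4 : PadicAlgCl 2) := by
        simpa using isAlgebraic_natCast (R := ℚ) (A := PadicAlgCl 2) 4
      show IsAlgebraic ℚ ((1 + 4 * r i.val) / (1 - 4 * r i.val))
      rw [div_eq_mul_inv]
      exact (isAlgebraic_one.add (h4a.mul hra)).mul (isAlgebraic_one.sub (h4a.mul hra)).inv
    · intro h
      have h' : (1 + 4 * r i.val) / (1 - 4 * r i.val) = 1 := h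
      rw [h', sub_self, norm_zero] at hdn
      norm_num at hdn
  · have hi : i.val < ℓ := ZMod.val_lt i
    show ρ ((1 + 4 * r i.val) / (1 - 4 * r i.val)) = (1 + 4 * r (i + 1).val) / (1 - 4 * r (i + 1).val)
    have hstep : ρ (r i.val) = r (i + 1).val := by
      rw [ZMod.val_add, ZMod.val_one]
      rcases Nat.lt_or_ge (i.val + 1) ℓ with h | h
      · rw [Nat.mod_eq_of_lt h]
        exact hρ _ h
      · have h1 : i.val = ℓ - 1 := by omega
        have h2 : i.val + 1 = ℓ := by omega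
        rw [h2, Nat.mod_self, h1]
        exact hρ'
    rw [map_div₀, map_add, map_sub, map_mul, map_one, map_ofNat, hstep]
  · show σ ((1 + 4 * r (0 : ZMod ℓ).val) / (1 - 4 * r (0 : ZMod ℓ).val)) =
      ((1 + 4 * r (0 : ZMod ℓ).val) / (1 - 4 * r (0 : ZMod ℓ).val))⁻¹
    rw [ZMod.val_zero, map_div₀, map_add, map_sub, map_mul, map_one, map_ofNat, hσ0', inv_div]
    congr 1 <;> ring
  · intro i hi0
    have hi : i.val < ℓ := ZMod.val_lt i
    have hpos : 0 < i.val := by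
      rcases Nat.eq_zero_or_pos i.val with h | h
      · exact absurd ((ZMod.val_eq_zero i).1 h) hi0
      · exact h
    show σ ((1 + 4 * r i.val) / (1 - 4 * r i.val)) = (1 + 4 * r i.val) / (1 - 4 * r i.val)
    rw [map_div₀, map_add, map_sub, map_mul, map_one, map_ofNat, hσ' _ hpos hi]

end Pool.Agent.P8H38.QC
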